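import Mathlib
import Pool.Agent.Helper43.Gx.Goals2

/-!
Packet Y5: the long strip.
-/

set_option autoImplicit false

namespace Pool.Agent.Helper43.Gx.PkY5

open Finset Pool.Agent.Lead.Sh
open Pool.Agent.Helper43.Gx
open Helper18.Cusp (Concl GoodFor)
open Helper18.Np (fm)
open Pool.Agent.Helper43.Ah (ch2_pos rowsD mem_rowsD card_rowsD rowsD_congr
  rows_congr pigeon choose_mono subtotal)

theorem mem_TD {R t : ℕ} (hR : 1 ≤ R) {x : ℕ × ℕ} :
    x ∈ TD R t ↔ x.2 < R ∧ R * x.1 + (R - 1) * x.2 ≤ t := by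
  unfold TD
  rw [mem_filter, mem_product, mem_range, mem_range]
  constructor
  · rintro ⟨⟨_, h2⟩, h3⟩
    exact ⟨h2, h3⟩
  · rintro ⟨h2, h3⟩
    refine ⟨⟨?_, h2⟩, h3⟩
    have : x.1 ≤ R * x.1 := Nat.le_mul_of_pos_left _ (by omega)
    omega

theorem TD_mono {R t t' : ℕ} (hR : 1 ≤ R) (h : t ≤ t') : TD R t ⊆ TD R t' := by
  intro x hx
  rw [mem_TD hR] at hx ⊢
  exact ⟨hx.1, hx.2.trans h⟩

theorem TD_eq {R d : ℕ} (hR : 1 ≤ R) : TD R (R * d) = rowsD R (fun y => d + 1 - y) := by
  ext ⟨a, b⟩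
  rw [mem_TD hR, mem_rowsD]
  simp only
  obtain ⟨r, rfl⟩ : ∃ r, R = r + 1 := ⟨R - 1, by omega⟩
  rw [Nat.add_sub_cancel]
  constructor
  · rintro ⟨h1, h2⟩
    refine ⟨h1, ?_⟩
    have h3 : (r + 1) * (a + b) < (r + 1) * (d + 1) := by nlinarith
    have h4 := Nat.lt_of_mul_lt_mul_left h3
    omega
  · rintro ⟨h1, h2⟩
    refine ⟨h1, ?_⟩
    have h3 : a + b ≤ d := by omega
    have h4 : (r + 1) * (a + b) ≤ (r + 1) * d := Nat.mul_le_mul_left _ h3
    nlinarith

theorem TD_succ {R t : ℕ} (hR : 1 ≤ R) (h : (R - 1) * (R - 1) ≤ t + 1) :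
    (TD R (t + 1)).card = (TD R t).card + 1 := by
  obtain ⟨r, rfl⟩ : ∃ r, R = r + 1 := ⟨R - 1, by omega⟩
  rw [Nat.add_sub_cancel] at h
  obtain ⟨b, c, hb, hbc⟩ : ∃ b c, b < r + 1 ∧ t + 1 + b = (r + 1) * c := by
    have h1 := Nat.div_add_mod (t + 1) (r + 1)
    have h2 := Nat.mod_lt (t + 1) (show 0 < r + 1 by omega)
    by_cases h3 : (t + 1) % (r + 1) = 0
    · exact ⟨0, (t + 1) / (r + 1), by omega, by omega⟩
    · refine ⟨(r + 1) - (t + 1) % (r + 1), (t + 1) / (r + 1) + 1, by omega, ?_⟩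
      rw [mul_add, mul_one]
      omega
  have hrb : r * b ≤ t + 1 := (Nat.mul_le_mul_left r (by omega)).trans h
  have hcb : b ≤ c := by
    have h1 : (r + 1) * b ≤ (r + 1) * c := by nlinarith
    exact Nat.le_of_mul_le_mul_left h1 (by omega)
  obtain ⟨a, rfl⟩ := Nat.exists_eq_add_of_le hcb
  have hv : (r + 1) * a + r * b = t + 1 := by nlinarith
  have hnot : ((a, b) : ℕ × ℕ) ∉ TD (r + 1) t := by
    rw [mem_TD hR]
    simp only [Nat.add_sub_cancel]
    rintro ⟨_, h2⟩
    omega
  have hset : TD (r + 1) (t + 1) = insert (a, b) (TD (r + 1) t) := by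
    ext ⟨x, y⟩
    rw [mem_insert, mem_TD hR, mem_TD hR]
    simp only [Nat.add_sub_cancel, Prod.mk.injEq]
    constructor
    · rintro ⟨h1, h2⟩
      rcases Nat.lt_or_ge ((r + 1) * x + r * y) (t + 1) with h3 | h3
      · right; exact ⟨h1, by omega⟩
      · left
        have h4 : (r + 1) * x + r * y = t + 1 := le_antisymm h2 h3
        have h5 : (r + 1) * (x + y) + b = (r + 1) * (a + b) + y := by nlinarith
        have h6 : b = y := by
          have h7 : b % (r + 1) = y % (r + 1) := by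
            have h8 := congrArg (fun u => u % (r + 1)) h5
            simp only [Nat.mul_add_mod] at h8
            exact h8
          rwa [Nat.mod_eq_of_lt hb, Nat.mod_eq_of_lt h1] at h7
        subst h6
        have h9 : (r + 1) * (x + b) = (r + 1) * (a + b) := by omega
        have h10 := Nat.eq_of_mul_eq_mul_left (show 0 < r + 1 by omega) h9
        exact ⟨by omega, rfl⟩
    · rintro (⟨rfl, rfl⟩ | ⟨h1, h2⟩)
      · exact ⟨hb, hv.le⟩
      · exact ⟨h1, by omega⟩
  rw [hset, card_insert_of_notMem hnot]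

theorem TD_add {R t : ℕ} (hR : 1 ≤ R) (h : (R - 1) * (R - 1) ≤ t) (k : ℕ) :
    (TD R (t + k)).card = (TD R t).card + k := by
  induction k with
  | zero => rfl
  | succ k ih =>
    rw [← add_assoc, TD_succ hR (by omega), ih, add_assoc]

theorem goalY5 (hY4 : GoalY4) : GoalY5 := by
  classical
  intro M δ d K s0 mm hM hδ hKs0 hKδ hf hmm0 hd
  set R : ℕ := δ + 1 with hRdef
  have hR1 : 1 ≤ R := by omega
  rw [← TD_eq hR1]
  have hf4 : fm mm K 0 ≤ 4 * R := by omega
  set s := s0.filter (fun k => 0 < mm k) with hs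
  have hss : s ⊆ s0 := filter_subset _ _
  have hKs : Disjoint K s := hKs0.mono_right hss
  have hrows : rows mm (K ∪ s0) = rows mm (K ∪ s) := by
    ext r
    rw [mem_rows, mem_rows, mem_union, mem_union, hs, mem_filter]
    constructor
    · rintro ⟨a | a, b⟩
      · exact ⟨Or.inl a, b⟩
      · exact ⟨Or.inr ⟨a, by omega⟩, b⟩
    · rintro ⟨a | a, b⟩
      · exact ⟨Or.inl a, b⟩
      · exact ⟨Or.inr a.1, b⟩
  set CK := ∑ k ∈ K, (mm k + 1).choose 2 with hCK
  have hsum0 : ∑ k ∈ K ∪ s0, (mm k + 1).choose 2 = CK + ∑ k ∈ s, (mm k + 1).choose 2 := by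
    rw [sum_union hKs0, hs, sum_filter]
    congr 1
    apply sum_congr rfl
    intro k _
    split_ifs with h1
    · rfl
    · rw [show mm k = 0 by omega]; rfl
  rw [GoodFor, hrows, hsum0]
  have h1 : ∀ k ∈ s, 1 ≤ mm k := fun k hk => (mem_filter.1 hk).2
  have hmm : ∀ k ∈ s, mm k ≤ M := fun k hk => hmm0 k (mem_filter.1 hk).1
  have hfm : ∑ y ∈ range R, fm mm K y = CK :=
    Helper18.Np.sum_fm mm K R (fun k hk => (hKδ k hk).trans (by omega))
  have hCKle : CK ≤ R * (4 * δ) := by
    rw [← hfm]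
    calc ∑ y ∈ range R, fm mm K y ≤ ∑ _y ∈ range R, 4 * δ :=
          sum_le_sum fun y _ => (Helper18.Np.fm_anti mm K (Nat.zero_le y)).trans hf
      _ = R * (4 * δ) := by rw [sum_const, card_range, smul_eq_mul]
  have hcardD : R * (d + 1 - δ) ≤ (TD R (R * d)).card := by
    rw [TD_eq hR1, card_rowsD]
    calc R * (d + 1 - δ) = ∑ _y ∈ range R, (d + 1 - δ) := by
          rw [sum_const, card_range, smul_eq_mul]
      _ ≤ ∑ y ∈ range R, (d + 1 - y) := by
          refine sum_le_sum fun y hy => ?_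
          rw [mem_range] at hy
          omega
  have hMδ : δ ≤ M * δ := Nat.le_mul_of_pos_left _ hM
  have hd' : 393 * M ^ 4 + 6 * (M * R) + 5 * δ ≤ d + 1 := by
    have e : 11 * M * (δ + 1) = 6 * (M * R) + 5 * (M * δ) + 5 * M := by
      rw [hRdef]; ring
    rw [e] at hd
    omega
  -- the main bound
  have hbig : M * (R * (393 * M ^ 3 + 6 * R)) + CK ≤ (TD R (R * d)).card := by
    refine le_trans ?_ hcardD
    have e : R * (d + 1 - δ) = R * (d + 1 - 5 * δ) + R * (4 * δ) := by
      rw [← mul_add]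
      congr 1
      omega
    rw [e]
    refine add_le_add ?_ hCKle
    have e2 : M * (R * (393 * M ^ 3 + 6 * R)) = R * (393 * M ^ 4 + 6 * (M * R)) := by ring
    rw [e2]
    exact Nat.mul_le_mul_left _ (by omega)
  have hRd : (R - 1) * (R - 1) ≤ R * d := by
    have h2 : R - 1 ≤ d := by omega
    exact Nat.mul_le_mul (by omega) h2
  -- the class
  have hclass : ∀ (sp : Finset ℕ) (mp : ℕ → ℕ), (∀ k ∈ sp, 1 ≤ mp k) → (∀ k ∈ sp, mp k ≤ M) →
      M * (R * (393 * M ^ 3 + 6 * R)) ≤ ∑ k ∈ sp, (mp k + 1).choose 2 →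
      ∃ μ, 1 ≤ μ ∧ μ ≤ M ∧ R * (393 * M ^ 3 + 6 * R) ≤
        ∑ k ∈ sp.filter (fun k => mp k = μ), (mp k + 1).choose 2 := by
    intro sp mp hp1 hp2 hp3
    obtain ⟨μ, hμ, hμM, hpig⟩ := pigeon M hM sp mp hp1 hp2
    refine ⟨μ, hμ, hμM, ?_⟩
    have e : ∑ k ∈ sp.filter (fun k => mp k = μ), (mp k + 1).choose 2 =
        (sp.filter (fun k => mp k = μ)).card * (μ + 1).choose 2 := by
      rw [sum_congr rfl (g := fun _ => (μ + 1).choose 2)]
      · rw [sum_const, smul_eq_mul]
      · intro k hk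
        rw [(mem_filter.1 hk).2]
    rw [e]
    exact Nat.le_of_mul_le_mul_left (hp3.trans hpig) (by omega)
  constructor
  · intro hT
    obtain ⟨s', hs', hT1, hT2⟩ := subtotal M ((TD R (R * d)).card - CK) hM mm s hmm (by omega)
    obtain ⟨k, hk⟩ := Nat.exists_eq_add_of_le hT1
    obtain ⟨μ, hμ, hμM, hcl⟩ := hclass s' mm (fun k hk => h1 k (hs' hk))
      (fun k hk => hmm k (hs' hk)) (by omega)
    have hInj := hY4 M μ R (R * d + k) K s' mm hμ hμM (by omega)
      (hKs.mono_right hs') hf4 (fun k hk => ⟨h1 k (hs' hk), hmm k (hs' hk)⟩) (by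
        rw [hfm, TD_add hR1 hRd, hk]
        omega) hcl
    exact hInj.mono (TD_mono hR1 (Nat.le_add_right _ _)) (rows_mono (union_subset_union_right hs'))
  · intro hT
    set j := (TD R (R * d)).card - (CK + ∑ k ∈ s, (mm k + 1).choose 2) with hj
    set B := (K ∪ s).sup id + 1 with hB
    have hsB : ∀ k ∈ K ∪ s, k < B := by
      intro k hk
      have : k ≤ (K ∪ s).sup id := le_sup (f := id) hk
      omega
    set mp : ℕ → ℕ := fun k => if k < B then mm k else 1 with hmp
    set sp := s ∪ Ico B (B + j) with hsp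
    have hdj : Disjoint s (Ico B (B + j)) := by
      rw [disjoint_left]
      intro k hk hk2
      rw [mem_Ico] at hk2
      have := hsB k (mem_union_right _ hk)
      omega
    have hmps : ∀ k ∈ K ∪ s, mm k = mp k := by
      intro k hk
      simp only [hmp]
      rw [if_pos (hsB k hk)]
    have hKsp : Disjoint K sp := by
      rw [disjoint_left]
      intro k hk hk2
      rcases mem_union.1 hk2 with hk3 | hk3
      · exact (disjoint_left.1 hKs) hk hk3
      · rw [mem_Ico] at hk3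
        have := hsB k (mem_union_left _ hk)
        omega
    have hsump : ∑ k ∈ sp, (mp k + 1).choose 2 = ∑ k ∈ s, (mm k + 1).choose 2 + j := by
      rw [hsp, sum_union hdj]
      congr 1
      · apply sum_congr rfl
        intro k hk
        rw [hmps k (mem_union_right _ hk)]
      · rw [sum_congr rfl (g := fun _ => 1)]
        · rw [sum_const, smul_eq_mul, Nat.card_Ico, Nat.add_sub_cancel_left, mul_one]
        · intro k hk
          rw [mem_Ico] at hk
          simp only [hmp]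
          rw [if_neg (by omega)]
          rfl
    have hCKp : ∑ k ∈ K, (mp k + 1).choose 2 = CK := by
      rw [hCK]
      refine sum_congr rfl fun k hk => ?_
      rw [hmps k (mem_union_left _ hk)]
    have hfmp : ∀ y, fm mp K y = fm mm K y := by
      intro y
      unfold fm
      refine sum_congr rfl fun k hk => ?_
      rw [hmps k (mem_union_left _ hk)]
    have h1p : ∀ k ∈ sp, 1 ≤ mp k := by
      intro k hk
      rcases mem_union.1 hk with hk | hk
      · rw [← hmps k (mem_union_right _ hk)]; exact h1 k hk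
      · rw [mem_Ico] at hk
        simp only [hmp]
        rw [if_neg (by omega)]
    have hmmp : ∀ k ∈ sp, mp k ≤ M := by
      intro k hk
      rcases mem_union.1 hk with hk | hk
      · rw [← hmps k (mem_union_right _ hk)]; exact hmm k hk
      · rw [mem_Ico] at hk
        simp only [hmp]
        rw [if_neg (by omega)]; exact hM
    obtain ⟨μ, hμ, hμM, hcl⟩ := hclass sp mp h1p hmmp (by omega)
    have hInj := hY4 M μ R (R * d) K sp mp hμ hμM (by omega) hKsp
      (by rw [hfmp]; exact hf4) (fun k hk => ⟨h1p k hk, hmmp k hk⟩) (by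
        rw [sum_congr rfl fun y _ => hfmp y, hfm, hsump]
        omega) hcl
    obtain ⟨P, hP⟩ := hInj
    have hInd : Ind (TD R (R * d)) (rows mp (K ∪ sp)) := ⟨P, hP.ind (by
      rw [card_rows, sum_union hKsp, hCKp, hsump]
      omega)⟩
    refine hInd.mono subset_rfl ?_
    rw [rows_congr hmps]
    refine rows_mono (union_subset_union_right ?_)
    exact subset_union_left

end Pool.Agent.Helper43.Gx.PkY5
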